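import Pool.Agent.H.MP_db48a2_an.Bg.Static

/-!
# A fixed direction contains a fixed point which is not repelling
-/

namespace PoolBerk

open Polynomial Metric

variable {K : Type*} [NontriviallyNormedField K] [IsUltrametricDist K]

/-- Quotients by integral polynomials with nonzero reduction are integral. -/
theorem intg_of_mul {D T V : K[X]} (hD : Intg D) (hT : Intg T) (hT0 : redP T ≠ 0)
    (h : D = T * V) : Intg V := by
  by_cases hV : V = 0
  · rw [hV]
    exact Intg_zero
  obtain ⟨e, he, h1, -, h2⟩ := exists_normalize (F := V) (G := V) (Or.inl hV)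
  have h2' : redP (C e * V) ≠ 0 := by
    rcases h2 with h2 | h2 <;> exact h2
  have h3 : C e * D = T * (C e * V) := by
    rw [h]
    ring
  have h4 : redP (C e * D) ≠ 0 := by
    rw [h3, redP_mul hT h1]
    exact mul_ne_zero hT0 h2'
  have h5 : 1 ≤ ‖e‖ := by
    by_contra hlt
    exact h4 (redP_C_mul_eq_zero hD (not_le.mp hlt)).2
  have h6 : V = C e⁻¹ * (C e * V) := by
    rw [← mul_assoc, ← C_mul, inv_mul_cancel₀ he, C_1, one_mul]
  rw [h6]
  refine (Intg.const ?_).mul h1
  rw [norm_inv]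
  exact inv_le_one_of_one_le₀ h5

/-- Products of linear factors. -/
theorem intg_prod_lin (T : Finset K) {v : kK K} (hT : ∀ w ∈ T, ‖w‖ ≤ 1 ∧ red w = v) :
    Intg (∏ w ∈ T, (X - C w)) ∧ redP (∏ w ∈ T, (X - C w)) = (X - C v) ^ T.card := by
  classical
  induction T using Finset.induction_on with
  | empty =>
    rw [Finset.prod_empty, Finset.card_empty, pow_zero]
    exact ⟨Intg_one, redP_one'⟩
  | insert w T hw ih =>
    obtain ⟨h1, h2⟩ := ih (fun x hx => hT x (Finset.mem_insert_of_mem hx))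
    obtain ⟨h3, h4⟩ := hT w (Finset.mem_insert_self w T)
    have h5 : Intg (X - C w : K[X]) := Intg.var.sub (Intg.const h3)
    rw [Finset.prod_insert hw, Finset.card_insert_of_notMem hw]
    refine ⟨h5.mul h1, ?_⟩
    rw [redP_mul h5 h1, redP_sub Intg.var (Intg.const h3), redP_X, redP_C, h4, h2, pow_succ']

/-- Partial fractions: if `‖Q w‖ < ‖G' w‖` at the zeros `w ∈ T` of `G`, all with reduction `v`, then the
reduction of `Q` is divisible by `(X - v) ^ |T|`. -/
theorem pow_dvd_red {G Q : K[X]} (hG : Intg G) (hG0 : redP G ≠ 0) (hQ : Intg Q) (T : Finset K)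
    {v : kK K} (hT : ∀ w ∈ T, ‖w‖ ≤ 1 ∧ red w = v) (hroot : ∀ w ∈ T, G.IsRoot w)
    (hr : ∀ w ∈ T, ‖Q.eval w‖ < ‖(derivative G).eval w‖) :
    (X - C v) ^ T.card ∣ redP Q := by
  classical
  obtain ⟨hF, hF1⟩ := intg_prod_lin T hT
  have hF0 : redP (∏ w ∈ T, (X - C w)) ≠ 0 := by
    rw [hF1]
    exact pow_ne_zero _ (X_sub_C_ne_zero v)
  have hdvd : ∀ D : K[X], (∀ w ∈ T, D.IsRoot w) → (∏ w ∈ T, (X - C w)) ∣ D := by
    intro D hD
    refine Finset.prod_dvd_of_coprime ?_ (fun w hw => dvd_iff_isRoot.mpr (hD w hw))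
    intro w _ w' _ hne
    exact isCoprime_X_sub_C_of_isUnit_sub (sub_ne_zero.mpr hne).isUnit
  obtain ⟨H, hH⟩ := hdvd G hroot
  have hHi : Intg H := intg_of_mul hG hF hF0 hH
  set r : K → K := fun w => Q.eval w / (derivative G).eval w with hrdef
  have hr1 : ∀ w ∈ T, ‖r w‖ < 1 := by
    intro w hw
    have h1 : 0 < ‖(derivative G).eval w‖ := lt_of_le_of_lt (norm_nonneg _) (hr w hw)
    rw [hrdef]
    simp only
    rw [norm_div, div_lt_one h1]
    exact hr w hw
  have hlag : ∀ w ∈ T, Intg (∏ w' ∈ T.erase w, (X - C w')) := fun w _ =>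
    (intg_prod_lin (T.erase w) (fun x hx => hT x (Finset.mem_of_mem_erase hx))).1
  have hU := Intg_sum T (fun w => C (r w) * ∏ w' ∈ T.erase w, (X - C w'))
    (fun w hw => (redP_C_mul_eq_zero (hlag w hw) (hr1 w hw)).1)
  set U : K[X] := ∑ w ∈ T, C (r w) * ∏ w' ∈ T.erase w, (X - C w') with hUdef
  have hU0 : redP U = 0 := by
    rw [hU.2]
    exact Finset.sum_eq_zero fun w hw => (redP_C_mul_eq_zero (hlag w hw) (hr1 w hw)).2
  have hUe : ∀ w ∈ T, U.eval w = r w * ∏ w' ∈ T.erase w, (w - w') := by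
    intro w hw
    rw [hUdef, eval_finset_sum, Finset.sum_eq_single w]
    · rw [eval_mul, eval_C, eval_prod]
      congr 1
      refine Finset.prod_congr rfl fun w' _ => ?_
      rw [eval_sub, eval_X, eval_C]
    · intro w' _ hne
      rw [eval_mul, eval_prod]
      have h1 : w ∈ T.erase w' := Finset.mem_erase.mpr ⟨hne.symm, hw⟩
      rw [Finset.prod_eq_zero h1 (by rw [eval_sub, eval_X, eval_C, sub_self]), mul_zero]
    · intro h
      exact absurd hw h
  have hG' : ∀ w ∈ T, (derivative G).eval w = (∏ w' ∈ T.erase w, (w - w')) * H.eval w := by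
    intro w hw
    have h1 : G = (X - C w) * ((∏ w' ∈ T.erase w, (X - C w')) * H) := by
      rw [← mul_assoc, Finset.mul_prod_erase T (fun w' => (X - C w' : K[X])) hw]
      exact hH
    rw [h1, derivative_mul, eval_add, eval_mul, eval_mul, eval_mul, derivative_sub, derivative_X,
      derivative_C, sub_zero, eval_one, one_mul, eval_sub, eval_X, eval_C, sub_self, zero_mul,
      add_zero, eval_prod]
    congr 1
    refine Finset.prod_congr rfl fun w' _ => ?_
    rw [eval_sub, eval_X, eval_C]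
  obtain ⟨V, hV⟩ := hdvd (Q - U * H) (by
    intro w hw
    have h0 : (derivative G).eval w ≠ 0 := by
      intro h0
      have h1 := hr w hw
      rw [h0, norm_zero] at h1
      exact absurd h1 (not_lt.mpr (norm_nonneg _))
    rw [IsRoot, eval_sub, eval_mul, hUe w hw, mul_assoc, ← hG' w hw, hrdef]
    simp only
    rw [div_mul_cancel₀ _ h0, sub_self])
  have hD : Intg (Q - U * H) := hQ.sub (hU.1.mul hHi)
  have hVi : Intg V := intg_of_mul hD hF hF0 hV
  have hfin : Q = U * H + (∏ w ∈ T, (X - C w)) * V := by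
    rw [← hV]
    ring
  have h1 : redP Q = (X - C v) ^ T.card * redP V := by
    rw [hfin, redP_add (hU.1.mul hHi) (hF.mul hVi), redP_mul hU.1 hHi, hU0, zero_mul, zero_add,
      redP_mul hF hVi, hF1]
  rw [h1]
  exact dvd_mul_right _ _

/-- **There are no failing directions.** -/
theorem failSet_empty [IsAlgClosed K] {P Q : K[X]} {a c s : K} {A B : (kK K)[X]}
    (hc : c ≠ 0) (h : IsRed P Q a c a c A B s) (hB : B ≠ 0) (hne : A - X * B ≠ 0) :
    failSet P Q 0 a c = ∅ := by
  classical
  rw [Set.eq_empty_iff_forall_notMem]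
  intro v hv
  obtain ⟨h1, h2⟩ := cnt_dir_red hc h hB hne v
  have h3 := hv.1
  rw [h1, h2] at h3
  set G : K[X] := C s * aff a c (P - X * Q) with hGdef
  have hGi : Intg G := h.phi.1
  have hGr : redP G = A - X * B := h.phi.2
  have hG0 : redP G ≠ 0 := by
    rw [hGr]
    exact hne
  have hGne : G ≠ 0 := by
    intro h0
    rw [h0, redP_zero'] at hG0
    exact hG0 rfl
  have hcnt := cnt_ball_one hGi hG0 (norm_rep_le v)
  rw [red_rep, hGr] at hcnt
  have hc' : 0 < ‖c‖ := norm_pos_iff.mpr hc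
  -- the zeros of `G` in the ball
  have hw : ∀ w ∈ G.roots, w ∈ ball (rep v) 1 → ‖w‖ ≤ 1 ∧ red w = v ∧ G.IsRoot w ∧
      ‖(C (s * c) * aff a c Q).eval w‖ < ‖(derivative G).eval w‖ := by
    intro w hw1 hw2
    have hGw : G.IsRoot w := isRoot_of_mem_roots hw1
    have hwn : ‖w - rep v‖ < 1 := by
      rw [← dist_eq_norm]
      exact hw2
    have hw3 : ‖w‖ ≤ 1 := by
      have h4 : w = (w - rep v) + rep v := by ring
      rw [h4]
      exact (IsUltrametricDist.norm_add_le_max _ _).trans (max_le hwn.le (norm_rep_le v))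
    have hw4 : red w = v := by
      rw [← red_rep v]
      exact (red_eq_iff hw3 (norm_rep_le v)).mpr hwn
    have hev : ∀ F : K[X], (aff a c F).eval w = F.eval (a + c * w) := by
      intro F
      rw [aff, eval_comp, eval_add, eval_mul, eval_C, eval_C, eval_X]
    have hy1 : (P - X * Q).IsRoot (a + c * w) := by
      have h5 : s * (P - X * Q).eval (a + c * w) = 0 := by
        have h6 : G.eval w = 0 := hGw
        rw [hGdef, eval_mul, eval_C, hev] at h6
        exact h6
      exact (mul_eq_zero.mp h5).resolve_left h.hs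
    have hFne : P - X * Q ≠ 0 := by
      intro h0
      rw [hGdef, h0] at hGne
      apply hGne
      rw [aff, zero_comp, mul_zero]
    have hy2 : a + c * w ∈ dirB a c v := by
      rw [dirB, mem_ball, dist_eq_norm]
      have h6 : a + c * w - (a + c * rep v) = c * (w - rep v) := by ring
      rw [h6, norm_mul]
      exact mul_lt_of_lt_one_right hc' hwn
    have hy3 : a + c * w ∉ Bad P Q := by
      intro hbad
      have h6 : a + c * w ∈ badRoots P Q + 0 := by
        rw [Multiset.mem_add]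
        left
        unfold badRoots
        convert Multiset.mem_filter.2 ⟨(mem_roots hFne).mpr hy1, hbad⟩
      exact (cnt_eq_zero_iff _ _).1 hv.2 _ h6 hy2
    have hy4 : ‖Q.eval (a + c * w)‖ < ‖(derivative (P - X * Q)).eval (a + c * w)‖ := by
      have h7 := wronsk_eval (Deriv_root hy1)
      have h8 : ‖Q.eval (a + c * w)‖ ^ 2 <
          ‖(derivative P * Q - P * derivative Q).eval (a + c * w)‖ := not_le.mp hy3
      rw [h7, norm_mul, pow_two] at h8
      have h9 := lt_of_mul_lt_mul_left h8 (norm_nonneg _)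
      by_contra hcon
      have h10 := IsUltrametricDist.norm_add_le_max ((derivative (P - X * Q)).eval (a + c * w))
        (Q.eval (a + c * w))
      rw [max_eq_right (not_lt.mp hcon)] at h10
      exact absurd h9 (not_lt.mpr h10)
    refine ⟨hw3, hw4, hGw, ?_⟩
    rw [hGdef, derivative_C_mul, derivative_aff, eval_mul, eval_C, hev, eval_mul, eval_mul,
      eval_C, eval_C, hev, norm_mul, norm_mul, norm_mul, norm_mul, mul_assoc]
    have hs' : 0 < ‖s‖ := norm_pos_iff.mpr h.hs
    exact mul_lt_mul_of_pos_left (mul_lt_mul_of_pos_left hy4 hc') hs'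
  -- they are simple
  set T : Finset K := (G.roots.filter (fun w => w ∈ ball (rep v) 1)).toFinset with hTdef
  have hmem : ∀ w ∈ T, w ∈ G.roots ∧ w ∈ ball (rep v) 1 := by
    intro w hw1
    rw [hTdef, Multiset.mem_toFinset, Multiset.mem_filter] at hw1
    exact hw1
  have hnd : (G.roots.filter (fun w => w ∈ ball (rep v) 1)).Nodup := by
    rw [Multiset.nodup_iff_count_le_one]
    intro w
    by_cases hw1 : w ∈ G.roots.filter (fun w => w ∈ ball (rep v) 1)
    · have hw2 := Multiset.mem_filter.mp hw1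
      obtain ⟨-, -, h5, h6⟩ := hw w hw2.1 hw2.2
      have h7 : Multiset.count w (G.roots.filter (fun w => w ∈ ball (rep v) 1)) ≤
          Multiset.count w G.roots := Multiset.count_le_of_le w (Multiset.filter_le _ _)
      rw [count_roots] at h7
      refine h7.trans ?_
      by_contra hcon
      have h8 := (one_lt_rootMultiplicity_iff_isRoot hGne).1 (not_le.mp hcon)
      have h9 : (derivative G).eval w = 0 := h8.2
      rw [h9, norm_zero] at h6
      exact absurd h6 (not_lt.mpr (norm_nonneg _))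
    · rw [Multiset.count_eq_zero_of_notMem hw1]
      exact Nat.zero_le 1
  have hTcard : T.card = (A - X * B).rootMultiplicity v := by
    rw [← hcnt, RC_cnt, hTdef, Multiset.toFinset_card_of_nodup hnd]
  have hdvd := pow_dvd_red hGi hG0 h.i2 T (v := v)
    (fun w hw1 => ⟨(hw w (hmem w hw1).1 (hmem w hw1).2).1, (hw w (hmem w hw1).1 (hmem w hw1).2).2.1⟩)
    (fun w hw1 => (hw w (hmem w hw1).1 (hmem w hw1).2).2.2.1)
    (fun w hw1 => (hw w (hmem w hw1).1 (hmem w hw1).2).2.2.2)
  rw [h.r2, ← le_rootMultiplicity_iff hB, hTcard] at hdvd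
  omega

/-- **Static inequality, exact form.** -/
theorem static_exact [IsAlgClosed K] {P Q : K[X]} (hPQ : IsCoprime P Q) (hQ : Q ≠ 0)
    (hne : P - X * Q ≠ 0) {ι : Type*} {I : Finset ι}
    {a c s : ι → K} {A B : ι → (kK K)[X]} (hc : ∀ i ∈ I, c i ≠ 0)
    (sep : ∀ i ∈ I, ∀ j ∈ I, ‖a i - a j‖ ≤ ‖c i‖ → ‖c i‖ = ‖c j‖ → i = j)
    (hred : ∀ i ∈ I, IsRed P Q (a i) (c i) (a i) (c i) (A i) (B i) (s i))
    (hnon : ∀ i ∈ I, NonC (A i) (B i)) (hD : ∀ i ∈ I, 2 ≤ degPQ (A i) (B i)) :
    ∑ i ∈ I, ((degPQ (A i) (B i) : ℤ) - 1) + (RepPts P Q).ncard ≤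
      ((max (P - X * Q).natDegree Q.natDegree : ℕ) : ℤ) := by
  have h1 := tree_top (treeHyp_uu hPQ hQ hne 0) (treeItems_uu 0 hc sep hred hnon hD)
  obtain ⟨-, h2⟩ := card_badRoots_add hne
  have h4 : Multiset.card (P - X * Q).roots = (P - X * Q).natDegree :=
    IsAlgClosed.card_roots_eq_natDegree
  have h5 : Multiset.card Q.roots = Q.natDegree :=
    IsAlgClosed.card_roots_eq_natDegree
  have h8 : ∑ i ∈ I, ((failSet P Q 0 (a i) (c i)).ncard : ℤ) = 0 := by
    refine Finset.sum_eq_zero fun i hi => ?_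
    rw [failSet_empty (hc i hi) (hred i hi) (hnon i hi).1
      (ne_X_mul_of_two_le (hnon i hi).1 (hD i hi)), Set.ncard_empty, Nat.cast_zero]
  rw [h4, h5, add_zero, Finset.sum_sub_distrib, h8, sub_zero] at h1
  have h7 : (Multiset.card (badRoots P Q) : ℤ) + (RepPts P Q).ncard ≤
      ((P - X * Q).natDegree : ℤ) := by exact_mod_cast h2
  have h6 : ((P - X * Q).natDegree : ℤ) + max 0 ((Q.natDegree : ℤ) - (P - X * Q).natDegree) =
      ((max (P - X * Q).natDegree Q.natDegree : ℕ) : ℤ) := by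
    rw [Nat.cast_max]
    rcases le_total ((Q.natDegree : ℤ)) ((P - X * Q).natDegree) with h | h
    · rw [max_eq_left (sub_nonpos.mpr h), max_eq_left h, add_zero]
    · rw [max_eq_right (sub_nonneg.mpr h), max_eq_right h]
      ring
  linarith

end PoolBerk
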