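import Pool.Agent.H.MP_db48a2_an.Ex.Fix
import Pool.Agent.H.MP_db48a2_an.Bg.FinB

/-!
# The exact inequality for repelling fixed points of iterates
-/

namespace PoolBerk

open Polynomial Metric Finset Filter Topology

open scoped NNReal

variable {K : Type*} [NontriviallyNormedField K] [IsUltrametricDist K]

section sys

variable {P Q : K[X]} {ι : Type*} {I : Finset ι} {ρ : ι → ι} {a c s : ι → K}
  {A B : ι → (kK K)[X]}

theorem Sys.exact [IsAlgClosed K] (h : Sys P Q I ρ a c s A B) (hPQ : IsCoprime P Q) {d : ℕ}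
    (hd : max P.natDegree Q.natDegree = d) (h2 : 2 ≤ d) {n : ℕ} (hn : 1 ≤ n)
    (hper : ∀ i ∈ I, ρ^[n] i = i)
    (hD : ∀ i ∈ I, 2 ≤ degPQ (rA d ρ A B n i) (rB d ρ A B n i)) :
    ∑ i ∈ I, (degPQ (rA d ρ A B n i) (rB d ρ A B n i) - 1) +
        (RepPts (itP d P Q n) (itQ d P Q n)).ncard ≤
      max (itP d P Q n - X * itQ d P Q n).natDegree (itQ d P Q n).natDegree := by
  have hP : P.natDegree ≤ d := hd ▸ le_max_left _ _
  have hQ : Q.natDegree ≤ d := hd ▸ le_max_right _ _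
  have hR := h.rsys hP hQ
  have hit : ∀ i ∈ I, ∃ t, IsRed (itP d P Q n) (itQ d P Q n) (a i) (c i) (a i) (c i)
      (rA d ρ A B n i) (rB d ρ A B n i) t := by
    intro i hi
    obtain ⟨t, ht⟩ := h.iter hPQ hd n hi
    rw [hper i hi] at ht
    exact ⟨t, ht⟩
  choose! t ht using hit
  have hnon : ∀ i ∈ I, NonC (rA d ρ A B n i) (rB d ρ A B n i) := fun i hi => hR.nonC n hi
  have hne := itP_sub_ne_zero hPQ hd h2 hn
  have hst := static_exact (itPQ_spec hPQ hd n).1 (itQ_ne_zero hPQ hd (by omega) n) hne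
    h.hc h.sep ht hnon hD
  have hcast : (∑ i ∈ I, ((degPQ (rA d ρ A B n i) (rB d ρ A B n i) : ℤ) - 1)) =
      ((∑ i ∈ I, (degPQ (rA d ρ A B n i) (rB d ρ A B n i) - 1) : ℕ) : ℤ) := by
    push_cast
    refine Finset.sum_congr rfl fun i hi => ?_
    have := hD i hi
    omega
  rw [hcast] at hst
  exact_mod_cast hst

end sys

variable {σ : RatFunc K →ₐ[K] RatFunc K}

/-- Degrees of `g (z) - z`. -/
theorem Ex_deg {P Q : K[X]} {D : ℕ} (hD : max P.natDegree Q.natDegree = D) :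
    max (P - X * Q).natDegree Q.natDegree + (if Q.natDegree < P.natDegree then 1 else 0) ≤
      D + 1 := by
  have h1 : (X * Q : K[X]).natDegree ≤ 1 + Q.natDegree :=
    natDegree_mul_le.trans (Nat.add_le_add_right natDegree_X_le _)
  have h2 := natDegree_sub_le P (X * Q)
  have hP : P.natDegree ≤ D := hD ▸ le_max_left _ _
  have hQ : Q.natDegree ≤ D := hD ▸ le_max_right _ _
  split_ifs with h
  · have h3 : max P.natDegree (X * Q : K[X]).natDegree ≤ D := max_le hP (by omega)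
    have h4 : max (P - X * Q).natDegree Q.natDegree ≤ D := max_le (h2.trans h3) hQ
    omega
  · have h3 : max P.natDegree (X * Q : K[X]).natDegree ≤ D + 1 := max_le (by omega) (by omega)
    have h4 : max (P - X * Q).natDegree Q.natDegree ≤ D + 1 := max_le (h2.trans h3) (by omega)
    omega

theorem exact_finset [IsAlgClosed K] (hd : 2 ≤ rdeg (σ RatFunc.X)) {n : ℕ} (hn : 1 ≤ n)
    (S : Finset (Valuation (RatFunc K) ℝ≥0)) (hS : ∀ v ∈ S, v ∈ RFixH (σ ^ n)) :
    ∑ v ∈ S, (locDeg (σ ^ n) v - 1) + repCount σ n +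
      (if ((σ ^ n) RatFunc.X).denom.natDegree < ((σ ^ n) RatFunc.X).num.natDegree then 1 else 0) ≤
        rdeg (σ RatFunc.X) ^ n + 1 := by
  have hsys := orbs_sys hn hS
  have hcop : IsCoprime (σ RatFunc.X).num (σ RatFunc.X).denom := RatFunc.isCoprime_num_denom _
  have hr := hsys.rsys (d := rdeg (σ RatFunc.X)) (le_max_left _ _) (le_max_right _ _)
  set D : Valuation (RatFunc K) ℝ≥0 → ℕ := fun v => degPQ
      (rA (rdeg (σ RatFunc.X)) (push σ) (fun v => (redData σ v).2.1)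
        (fun v => (redData σ v).2.2) n v)
      (rB (rdeg (σ RatFunc.X)) (push σ) (fun v => (redData σ v).2.1)
        (fun v => (redData σ v).2.2) n v) with hDdef
  have hper : ∀ w ∈ orbs σ n S, (push σ)^[n] w = w := fun w hw => orbs_period hS hw
  have hiter : ∀ v ∈ S, ∀ j, (push σ)^[j] v ∈ orbs σ n S := fun v hv j =>
    hsys.iter_mem j (subset_orbs hn hv)
  have hDj : ∀ v ∈ S, ∀ j, D ((push σ)^[j] v) = D v := by
    intro v hv j
    induction j with
    | zero => rfl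
    | succ j ih =>
      rw [Function.iterate_succ_apply' (push σ) j v, ← ih]
      exact hr.degPQ_cyc (hiter v hv j) (hper _ (hiter v hv j))
  have hloc : ∀ v ∈ S, locDeg (σ ^ n) v ≤ D v := fun v hv =>
    locDeg_le_red (by omega) hn hS hv
  have hD2 : ∀ w ∈ orbs σ n S, 2 ≤ D w := by
    intro w hw
    obtain ⟨v, hv, j, hj, rfl⟩ := mem_orbs.mp hw
    rw [hDj v hv j]
    exact (hS v hv).2.2.trans (hloc v hv)
  have hmain := hsys.exact hcop (d := rdeg (σ RatFunc.X)) rfl hd hn hper hD2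
  obtain ⟨l, hl, h1, h2⟩ := num_denom_iter σ (by omega : 1 ≤ rdeg (σ RatFunc.X)) n
  have hrep : (RepPts (itP (rdeg (σ RatFunc.X)) (σ RatFunc.X).num (σ RatFunc.X).denom n)
      (itQ (rdeg (σ RatFunc.X)) (σ RatFunc.X).num (σ RatFunc.X).denom n)).ncard =
      repCount σ n := by
    unfold repCount
    rw [h1, h2, RepPts_scale hl]
  rw [hrep] at hmain
  have hsum : ∑ v ∈ S, (locDeg (σ ^ n) v - 1) ≤ ∑ v ∈ orbs σ n S, (D v - 1) := by
    calc ∑ v ∈ S, (locDeg (σ ^ n) v - 1) ≤ ∑ v ∈ S, (D v - 1) :=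
          Finset.sum_le_sum fun v hv => Nat.sub_le_sub_right (hloc v hv) 1
      _ ≤ ∑ v ∈ orbs σ n S, (D v - 1) :=
          Finset.sum_le_sum_of_subset (subset_orbs hn)
  have hdeg := Ex_deg (itPQ_spec hcop (d := rdeg (σ RatFunc.X)) rfl n).2
  have h3 := (Nat.add_le_add_right hsum (repCount σ n)).trans hmain
  have hn1 : ((σ ^ n) RatFunc.X).num.natDegree =
      (itP (rdeg (σ RatFunc.X)) (σ RatFunc.X).num (σ RatFunc.X).denom n).natDegree := by
    rw [h1, natDegree_C_mul hl]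
  have hn2 : ((σ ^ n) RatFunc.X).denom.natDegree =
      (itQ (rdeg (σ RatFunc.X)) (σ RatFunc.X).num (σ RatFunc.X).denom n).natDegree := by
    rw [h2, natDegree_C_mul hl]
  rw [hn1, hn2]
  exact (Nat.add_le_add_right h3 _).trans hdeg

/-- **The exact inequality.** -/
theorem exact_real [IsAlgClosed K] (hd : 2 ≤ rdeg (σ RatFunc.X)) {n : ℕ} (hn : 1 ≤ n) :
    excess σ n + repCount σ n ≤ (rdeg (σ RatFunc.X) : ℝ) ^ n + 1 ∧
      (((σ ^ n) RatFunc.X).denom.natDegree < ((σ ^ n) RatFunc.X).num.natDegree →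
        excess σ n + repCount σ n ≤ (rdeg (σ RatFunc.X) : ℝ) ^ n) := by
  have h1 := exact_finset hd hn (finite_RFixH (σ := σ) hd hn).toFinset
    (fun v hv => (Set.Finite.mem_toFinset _).mp hv)
  rw [excess_eq hd hn]
  constructor
  · have h2 := (Nat.le_add_right _ _).trans h1
    exact_mod_cast h2
  · intro h
    rw [if_pos h] at h1
    have h2 := Nat.le_of_succ_le_succ h1
    exact_mod_cast h2

theorem repPts_finite [IsAlgClosed K] (hd : 2 ≤ rdeg (σ RatFunc.X)) {n : ℕ} (hn : 1 ≤ n) :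
    (RepPts ((σ ^ n) RatFunc.X).num ((σ ^ n) RatFunc.X).denom).Finite := by
  have hcop : IsCoprime (σ RatFunc.X).num (σ RatFunc.X).denom := RatFunc.isCoprime_num_denom _
  obtain ⟨l, hl, h1, h2⟩ := num_denom_iter σ (by omega : 1 ≤ rdeg (σ RatFunc.X)) n
  rw [h1, h2, RepPts_scale hl]
  exact (card_badRoots_add (itP_sub_ne_zero hcop rfl hd hn)).1

end PoolBerk
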